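import Mathlib

set_option autoImplicit false

namespace Pool.Agent.Results.MP_ec4324_co.NoFewSpecial

open Finset

/-- `S` is equidistributed in the direction `v` (a subspace of the plane over `F_p`): all lines
(cosets) parallel to `v` meet `S` in the same number of points. -/
def EquidistributedIn {p : ℕ} (S : Set (ZMod p × ZMod p))
    (v : Submodule (ZMod p) (ZMod p × ZMod p)) : Prop :=
  ∀ x y : ZMod p × ZMod p, (S ∩ {z | z - x ∈ v}).ncard = (S ∩ {z | z - y ∈ v}).ncard

/-- The number of directions (one-dimensional subspaces) in which `S` is equidistributed. -/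
noncomputable def numEquidistributed {p : ℕ} [Fact p.Prime] (S : Set (ZMod p × ZMod p)) : ℕ :=
  {v : Submodule (ZMod p) (ZMod p × ZMod p) |
    Module.finrank (ZMod p) v = 1 ∧ EquidistributedIn S v}.ncard

/-! ### Fourier part -/

section Fourier

variable {p : ℕ} [Fact p.Prime]

/-- real part of the standard additive character -/
noncomputable def C (x : ZMod p) : ℝ := (ZMod.stdAddChar x : ℂ).re

lemma C_zero : C (0 : ZMod p) = 1 := by simp [C]

lemma C_neg (x : ZMod p) : C (-x) = C x := by
  unfold C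
  rw [AddChar.map_neg_eq_conj]
  simp

lemma C_add_sub (x y : ZMod p) : C (x + y) + C (x - y) = 2 * C x * C y := by
  unfold C
  rw [sub_eq_add_neg, AddChar.map_add_eq_mul, AddChar.map_add_eq_mul, AddChar.map_neg_eq_conj]
  simp only [Complex.mul_re, Complex.conj_re, Complex.conj_im]
  ring

lemma C_lt_one {x : ZMod p} (hx : x ≠ 0) : C x < 1 := by
  unfold C
  have hnorm : ‖(ZMod.stdAddChar x : ℂ)‖ = 1 := AddChar.norm_apply _ _
  have hne : (ZMod.stdAddChar x : ℂ) ≠ 1 := by
    intro h
    apply hx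
    apply ZMod.injective_stdAddChar
    rw [h, AddChar.map_zero_eq_one]
  have hle : (ZMod.stdAddChar x : ℂ).re ≤ 1 := by
    calc (ZMod.stdAddChar x : ℂ).re ≤ ‖(ZMod.stdAddChar x : ℂ)‖ := Complex.re_le_norm _
      _ = 1 := hnorm
  rcases hle.lt_or_eq with h | h
  · exact h
  · exfalso
    apply hne
    have h2 : (ZMod.stdAddChar x : ℂ).im = 0 := by
      have h3 := Complex.sq_norm (ZMod.stdAddChar x : ℂ)
      rw [hnorm, Complex.normSq_apply, h] at h3
      nlinarith
    apply Complex.ext
    · simpa using h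
    · simpa using h2

lemma sum_C_mul (x : ZMod p) : ∑ h : ZMod p, C (h * x) = if x = 0 then (p : ℝ) else 0 := by
  unfold C
  rw [← Complex.re_sum, AddChar.sum_mulShift x (ZMod.isPrimitive_stdAddChar p)]
  split_ifs <;> simp [ZMod.card]

/-- weights -/
noncomputable def w (h : ZMod p) : ℝ := 1 / (1 - C h)

lemma w_pos {h : ZMod p} (hh : h ≠ 0) : 0 < w h := by
  unfold w
  have := C_lt_one hh
  apply div_pos one_pos
  linarith

/-- The periodic quadratic function, as a combination of characters. -/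
noncomputable def R (x : ZMod p) : ℝ := ∑ h ∈ univ.erase (0 : ZMod p), w h * (1 - C (h * x))

lemma R_zero : R (0 : ZMod p) = 0 := by
  unfold R
  apply Finset.sum_eq_zero
  intro h _
  simp [C_zero]

lemma R_second_diff (x : ZMod p) (hx : x ≠ 0) : R (x + 1) + R (x - 1) = 2 * R x - 2 := by
  have h1 : ∑ h ∈ univ.erase (0 : ZMod p), C (h * x) = -1 := by
    have h2 := sum_C_mul x
    rw [if_neg hx, ← Finset.add_sum_erase _ _ (Finset.mem_univ (0 : ZMod p))] at h2
    simp only [zero_mul, C_zero] at h2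
    linarith
  have h3 : R (x + 1) + R (x - 1) = 2 * R x + 2 * ∑ h ∈ univ.erase (0 : ZMod p), C (h * x) := by
    unfold R
    rw [← Finset.sum_add_distrib, Finset.mul_sum, Finset.mul_sum, ← Finset.sum_add_distrib]
    apply Finset.sum_congr rfl
    intro h hh
    have hh0 : h ≠ 0 := (Finset.mem_erase.1 hh).1
    have h4 := C_add_sub (h * x) h
    have h5 : C (h * (x + 1)) = C (h * x + h) := by ring_nf
    have h6 : C (h * (x - 1)) = C (h * x - h) := by ring_nf
    have h7 := C_lt_one hh0
    have h8 : w h * (1 - C h) = 1 := by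
      unfold w
      rw [one_div, inv_mul_cancel₀]
      linarith
    rw [h5, h6]
    linear_combination (-w h) * h4 + (2 * C (h * x)) * h8
  rw [h3, h1]
  ring

lemma R_natCast (n : ℕ) (hn : n ≤ p) : R ((n : ℕ) : ZMod p) = n * (p - n) := by
  have hp : (p : ℝ) ≠ 0 := by
    have := (Fact.out : p.Prime).pos
    positivity
  have key : ∀ n : ℕ, n ≤ p → R ((n : ℕ) : ZMod p) = n * R (1 : ZMod p) - n * (n - 1) ∧
      (n + 1 ≤ p → R (((n + 1 : ℕ)) : ZMod p) = (n + 1) * R (1 : ZMod p) - (n + 1) * n) := by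
    intro n
    induction n with
    | zero =>
      intro _
      constructor
      · simp [R_zero]
      · intro _
        simp
    | succ n ih =>
      intro hn
      have ih' := ih (by omega)
      have h1 := ih'.2 hn
      refine ⟨by rw [h1]; push_cast; ring, ?_⟩
      intro hn2
      have hne : ((n + 1 : ℕ) : ZMod p) ≠ 0 := by
        intro h
        rw [ZMod.natCast_eq_zero_iff] at h
        have := Nat.le_of_dvd (by omega) h
        omega
      have h2 := R_second_diff ((n + 1 : ℕ) : ZMod p) hne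
      have h3 : ((n + 1 : ℕ) : ZMod p) + 1 = ((n + 1 + 1 : ℕ) : ZMod p) := by push_cast; ring
      have h4 : ((n + 1 : ℕ) : ZMod p) - 1 = ((n : ℕ) : ZMod p) := by push_cast; ring
      rw [h3, h4, h1, ih'.1] at h2
      push_cast at h2 ⊢
      linarith
  have hpp := (key p le_rfl).1
  rw [ZMod.natCast_self, R_zero] at hpp
  have hR1 : R (1 : ZMod p) = p - 1 := by
    have : (p : ℝ) * (R (1 : ZMod p) - (p - 1)) = 0 := by linarith
    rcases mul_eq_zero.1 this with h | h
    · exact absurd h hp
    · linarith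
  rw [(key n hn).1, hR1]
  ring

lemma R_eq (x : ZMod p) : R x = x.val * (p - x.val) := by
  have := R_natCast x.val (ZMod.val_lt x).le
  rwa [ZMod.natCast_zmod_val] at this

lemma sum_R : ∑ x : ZMod p, R x = p * ((p : ℝ) ^ 2 - 1) / 6 := by
  have h1 : ∑ x : ZMod p, R x = ∑ n ∈ Finset.range p, ((n : ℝ) * (p - n)) := by
    have h2 : ∀ n ∈ Finset.range p, ((n : ℝ) * (p - n)) = R ((n : ℕ) : ZMod p) := by
      intro n hn
      rw [R_natCast n (Finset.mem_range.1 hn).le]
    rw [Finset.sum_congr rfl h2]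
    symm
    apply Finset.sum_bij (fun (n : ℕ) _ => ((n : ℕ) : ZMod p))
    · intro n _; exact Finset.mem_univ _
    · intro a ha b hb hab
      have ha' := Finset.mem_range.1 ha
      have hb' := Finset.mem_range.1 hb
      have := congrArg ZMod.val hab
      rwa [ZMod.val_natCast_of_lt ha', ZMod.val_natCast_of_lt hb'] at this
    · intro b _
      exact ⟨b.val, Finset.mem_range.2 (ZMod.val_lt b), ZMod.natCast_zmod_val b⟩
    · intro a _; rfl
  rw [h1]
  have key : ∀ m : ℕ, ∑ n ∈ Finset.range m, ((n : ℝ) * (p - n)) =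
      p * (m * (m - 1) / 2) - (m - 1) * m * (2 * m - 1) / 6 := by
    intro m
    induction m with
    | zero => simp
    | succ m ih =>
      rw [Finset.sum_range_succ, ih]
      push_cast
      ring
  rw [key]
  ring

lemma sum_w : ∑ h ∈ univ.erase (0 : ZMod p), w h = ((p : ℝ) ^ 2 - 1) / 6 := by
  have hp : (p : ℝ) ≠ 0 := by
    have := (Fact.out : p.Prime).pos
    positivity
  have h1 : ∑ x : ZMod p, R x = p * ∑ h ∈ univ.erase (0 : ZMod p), w h := by
    unfold R
    rw [Finset.sum_comm, Finset.mul_sum]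
    apply Finset.sum_congr rfl
    intro h hh
    have hh0 : h ≠ 0 := (Finset.mem_erase.1 hh).1
    rw [← Finset.mul_sum, Finset.sum_sub_distrib]
    have h2 : ∑ x : ZMod p, C (h * x) = 0 := by
      have := sum_C_mul h
      rw [if_neg hh0] at this
      rw [← this]
      apply Finset.sum_congr rfl
      intro x _
      rw [mul_comm]
    rw [h2]
    simp [ZMod.card]
    ring
  rw [sum_R] at h1
  field_simp at h1
  linarith

/-- If all nontrivial exponential sums over the values of `f` are small then the mean of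
`R ∘ f` is close to its expected value. -/
lemma sum_R_lt (hp2 : 2 ≤ p) (f : ZMod p → ZMod p)
    (hf : ∀ h : ZMod p, h ≠ 0 → ‖∑ t : ZMod p, (ZMod.stdAddChar (h * f t) : ℂ)‖ < (p : ℝ) / 8) :
    ∑ t, R (f t) < (9 / 8) * (p * ((p : ℝ) ^ 2 - 1) / 6) := by
  have h1 : ∑ t, R (f t) = ∑ h ∈ univ.erase (0 : ZMod p), w h * (p - ∑ t, C (h * f t)) := by
    unfold R
    rw [Finset.sum_comm]
    apply Finset.sum_congr rfl
    intro h _
    rw [← Finset.mul_sum, Finset.sum_sub_distrib]
    simp [ZMod.card]
  have h2 : (9 / 8) * (p * ((p : ℝ) ^ 2 - 1) / 6) =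
      ∑ h ∈ univ.erase (0 : ZMod p), w h * (p + p / 8) := by
    rw [← Finset.sum_mul, sum_w]
    ring
  rw [h1, h2]
  apply Finset.sum_lt_sum_of_nonempty
  · refine ⟨1, Finset.mem_erase.2 ⟨?_, Finset.mem_univ _⟩⟩
    have : Fact (1 < p) := ⟨by omega⟩
    exact one_ne_zero
  · intro h hh
    have hh0 : h ≠ 0 := (Finset.mem_erase.1 hh).1
    apply mul_lt_mul_of_pos_left _ (w_pos hh0)
    have h3 := hf h hh0
    have h4 : -(∑ t, C (h * f t)) ≤ ‖∑ t : ZMod p, (ZMod.stdAddChar (h * f t) : ℂ)‖ := by
      have h5 : ∑ t, C (h * f t) = (∑ t : ZMod p, (ZMod.stdAddChar (h * f t) : ℂ)).re := by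
        rw [Complex.re_sum]
        rfl
      rw [h5]
      have := Complex.abs_re_le_norm (∑ t : ZMod p, (ZMod.stdAddChar (h * f t) : ℂ))
      exact (neg_le_abs _).trans this
    linarith

/-! ### Exponential sums (Weyl differencing) -/

/-- The forward difference. -/
def Dl (F : ZMod p → ZMod p) : ZMod p → ZMod p := fun t => F (t + 1) - F t

lemma Dl_iter_shift (n : ℕ) (u : ZMod p) : ∀ F : ZMod p → ZMod p,
    Dl^[n] (fun t => F (t + u) - F t) = fun t => (Dl^[n] F) (t + u) - (Dl^[n] F) t := by
  induction n with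
  | zero => intro F; rfl
  | succ n ih =>
    intro F
    rw [Function.iterate_succ_apply, Function.iterate_succ_apply]
    have : Dl (fun t => F (t + u) - F t) = fun t => (Dl F) (t + u) - (Dl F) t := by
      funext t
      unfold Dl
      have h1 : t + 1 + u = t + u + 1 := by ring
      simp only [h1]
      ring
    rw [this, ih]

lemma Dl_iter_smul (n : ℕ) (h : ZMod p) : ∀ F : ZMod p → ZMod p,
    Dl^[n] (fun t => h * F t) = fun t => h * (Dl^[n] F) t := by
  induction n with
  | zero => intro F; rfl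
  | succ n ih =>
    intro F
    rw [Function.iterate_succ_apply, Function.iterate_succ_apply]
    have : Dl (fun t => h * F t) = fun t => h * (Dl F) t := by
      funext t
      unfold Dl
      ring
    rw [this, ih]

lemma shift_of_Dl_const {G : ZMod p → ZMod p} {c : ZMod p} (hG : ∀ t, Dl G t = c) (t u : ZMod p) :
    G (t + u) - G t = u * c := by
  have key : ∀ n : ℕ, G (t + (n : ZMod p)) - G t = (n : ZMod p) * c := by
    intro n
    induction n with
    | zero => simp
    | succ n ih =>
      have h1 := hG (t + (n : ZMod p))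
      unfold Dl at h1
      push_cast
      rw [← add_assoc]
      linear_combination h1 + ih
  have := key u.val
  rwa [ZMod.natCast_zmod_val] at this

/-- normalised exponential sum -/
noncomputable def es (F : ZMod p → ZMod p) : ℝ :=
  ‖∑ t : ZMod p, (ZMod.stdAddChar (F t) : ℂ)‖ / p

lemma es_nonneg (F : ZMod p → ZMod p) : 0 ≤ es F := by
  unfold es
  positivity

lemma es_le_one (F : ZMod p → ZMod p) : es F ≤ 1 := by
  unfold es
  have hp : (0 : ℝ) < p := by exact_mod_cast (Fact.out : p.Prime).pos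
  rw [div_le_one hp]
  calc ‖∑ t : ZMod p, (ZMod.stdAddChar (F t) : ℂ)‖ ≤ ∑ t : ZMod p, ‖(ZMod.stdAddChar (F t) : ℂ)‖ :=
        norm_sum_le _ _
    _ = ∑ t : ZMod p, (1 : ℝ) := by
        apply Finset.sum_congr rfl
        intro t _
        exact AddChar.norm_apply _ _
    _ = p := by simp [ZMod.card]

lemma es_sq_le (F : ZMod p → ZMod p) :
    es F ^ 2 ≤ (∑ u : ZMod p, es (fun t => F (t + u) - F t)) / p := by
  have hp : (0 : ℝ) < p := by exact_mod_cast (Fact.out : p.Prime).pos
  have h1 : ((‖∑ t : ZMod p, (ZMod.stdAddChar (F t) : ℂ)‖ ^ 2 : ℝ) : ℂ) =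
      ∑ u : ZMod p, ∑ t : ZMod p, (ZMod.stdAddChar (F (t + u) - F t) : ℂ) := by
    have h2 : ((‖∑ t : ZMod p, (ZMod.stdAddChar (F t) : ℂ)‖ ^ 2 : ℝ) : ℂ) =
        (∑ t : ZMod p, (ZMod.stdAddChar (F t) : ℂ)) *
        (starRingEnd ℂ) (∑ t : ZMod p, (ZMod.stdAddChar (F t) : ℂ)) := by
      rw [Complex.mul_conj, Complex.normSq_eq_norm_sq]
    rw [h2, map_sum, Finset.sum_mul_sum]
    have h3 : ∀ i j : ZMod p, (ZMod.stdAddChar (F i) : ℂ) * (starRingEnd ℂ)
        (ZMod.stdAddChar (F j) : ℂ) = (ZMod.stdAddChar (F i - F j) : ℂ) := by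
      intro i j
      rw [sub_eq_add_neg, AddChar.map_add_eq_mul, AddChar.map_neg_eq_conj]
    simp only [h3]
    rw [Finset.sum_comm]
    rw [Finset.sum_comm (f := fun u t => (ZMod.stdAddChar (F (t + u) - F t) : ℂ))]
    apply Finset.sum_congr rfl
    intro t _
    symm
    apply Fintype.sum_equiv (Equiv.addLeft t)
    intro u
    rfl
  have h4 : ‖∑ t : ZMod p, (ZMod.stdAddChar (F t) : ℂ)‖ ^ 2 ≤
      ∑ u : ZMod p, ‖∑ t : ZMod p, (ZMod.stdAddChar (F (t + u) - F t) : ℂ)‖ := by
    have h5 : ‖((‖∑ t : ZMod p, (ZMod.stdAddChar (F t) : ℂ)‖ ^ 2 : ℝ) : ℂ)‖ =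
        ‖∑ t : ZMod p, (ZMod.stdAddChar (F t) : ℂ)‖ ^ 2 := by
      rw [Complex.norm_real, Real.norm_of_nonneg (by positivity)]
    rw [← h5, h1]
    exact norm_sum_le _ _
  unfold es
  rw [← Finset.sum_div, div_pow, div_div, ← sq]
  exact div_le_div_of_nonneg_right h4 (by positivity)

lemma inner_le_mean_pow {d : ℕ} (f : ZMod p → ℝ) (hf : ∀ u, 0 ≤ f u) :
    ((∑ u : ZMod p, f u) / p) ^ 2 ^ d ≤ (∑ u : ZMod p, f u ^ 2 ^ d) / p := by
  have hp : (0 : ℝ) < p := by exact_mod_cast (Fact.out : p.Prime).pos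
  have h := Real.pow_arith_mean_le_arith_mean_pow (univ : Finset (ZMod p))
    (fun _ => (1 : ℝ) / p) f (fun _ _ => by positivity) (by
      simp [ZMod.card]) (fun u _ => hf u) (2 ^ d)
  rw [← Finset.mul_sum, ← Finset.mul_sum] at h
  rw [div_eq_inv_mul, div_eq_inv_mul, ← one_div]
  exact h

lemma es_pow_le (d : ℕ) : ∀ (F : ZMod p → ZMod p) (c : ZMod p), c ≠ 0 →
    (∀ t, (Dl^[d + 1] F) t = c) → es F ^ 2 ^ d ≤ (d : ℝ) / p := by
  have hp : (0 : ℝ) < p := by exact_mod_cast (Fact.out : p.Prime).pos
  induction d with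
  | zero =>
    intro F c hc hF
    have h1 : ∀ t, F t = F 0 + t * c := by
      intro t
      have := shift_of_Dl_const (G := F) (c := c) (fun t => by simpa using hF t) 0 t
      rw [zero_add] at this
      linear_combination this
    have h2 : ∑ t : ZMod p, (ZMod.stdAddChar (F t) : ℂ) = 0 := by
      have h3 : ∑ t : ZMod p, (ZMod.stdAddChar (F t) : ℂ) =
          (ZMod.stdAddChar (F 0) : ℂ) * ∑ t : ZMod p, (ZMod.stdAddChar (t * c) : ℂ) := by
        rw [Finset.mul_sum]
        apply Finset.sum_congr rfl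
        intro t _
        rw [← AddChar.map_add_eq_mul, ← h1 t]
      rw [h3, AddChar.sum_mulShift c (ZMod.isPrimitive_stdAddChar p), if_neg hc]
      simp
    simp [es, h2]
  | succ d ih =>
    intro F c hc hF
    have hG : ∀ t, Dl (Dl^[d + 1] F) t = c := by
      intro t
      have := hF t
      rwa [Function.iterate_succ_apply'] at this
    have h1 : ∀ u : ZMod p, u ≠ 0 →
        es (fun t => F (t + u) - F t) ^ 2 ^ d ≤ (d : ℝ) / p := by
      intro u hu
      apply ih _ (u * c) (mul_ne_zero hu hc)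
      intro t
      rw [Dl_iter_shift]
      exact shift_of_Dl_const hG t u
    have h2 : es F ^ 2 ^ (d + 1) ≤
        ((∑ u : ZMod p, es (fun t => F (t + u) - F t)) / p) ^ 2 ^ d := by
      rw [pow_succ', pow_mul]
      exact pow_le_pow_left₀ (by positivity) (es_sq_le F) _
    have h3 : ((∑ u : ZMod p, es (fun t => F (t + u) - F t)) / p) ^ 2 ^ d ≤
        (∑ u : ZMod p, es (fun t => F (t + u) - F t) ^ 2 ^ d) / p := by
      have h4 := inner_le_mean_pow (d := d) (fun u : ZMod p => es (fun t => F (t + u) - F t))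
        (fun u => es_nonneg _)
      exact h4
    have h5 : ∑ u : ZMod p, es (fun t => F (t + u) - F t) ^ 2 ^ d ≤ 1 + p * ((d : ℝ) / p) := by
      rw [← Finset.add_sum_erase _ _ (Finset.mem_univ (0 : ZMod p))]
      apply add_le_add
      · exact pow_le_one₀ (es_nonneg _) (es_le_one _)
      · calc ∑ u ∈ univ.erase (0 : ZMod p), es (fun t => F (t + u) - F t) ^ 2 ^ d
            ≤ ∑ u ∈ univ.erase (0 : ZMod p), (d : ℝ) / p := by
              apply Finset.sum_le_sum
              intro u hu
              exact h1 u (Finset.mem_erase.1 hu).1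
          _ ≤ ∑ u : ZMod p, (d : ℝ) / p := by
              apply Finset.sum_le_sum_of_subset_of_nonneg (Finset.erase_subset _ _)
              intro i _ _
              positivity
          _ = p * ((d : ℝ) / p) := by simp [ZMod.card]
    have h6 : 1 + p * ((d : ℝ) / p) = d + 1 := by
      field_simp
      ring
    rw [h6] at h5
    push_cast
    calc es F ^ 2 ^ (d + 1) ≤ _ := h2
      _ ≤ _ := h3
      _ ≤ ((d : ℝ) + 1) / p := div_le_div_of_nonneg_right h5 hp.le

end Fourier

/-! ### The lower bound for the variance of the line counts -/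

section Variance

variable {p : ℕ} [Fact p.Prime]

/-- pointwise: `y (p - y) ≤ R (y mod p)` for every integer `y`. -/
lemma quad_le_R (y : ℤ) : (y : ℝ) * (p - y) ≤ R ((y : ℤ) : ZMod p) := by
  have hp0 : (0 : ℤ) < p := by exact_mod_cast (Fact.out : p.Prime).pos
  rw [R_eq]
  set r : ℤ := y % p with hr
  have hval : (((y : ℤ) : ZMod p).val : ℤ) = r := by
    rw [ZMod.val_intCast]
  have hval' : ((((y : ℤ) : ZMod p).val : ℕ) : ℝ) = (r : ℝ) := by exact_mod_cast hval
  rw [hval']
  set q : ℤ := y / p with hq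
  have hy : y = p * q + r := by
    rw [hq, hr]
    exact (Int.mul_ediv_add_emod y p).symm
  have hr0 : 0 ≤ r := Int.emod_nonneg _ (by omega)
  have hrp : r < p := Int.emod_lt_of_pos _ hp0
  have hint : y * (p - y) ≤ r * (p - r) := by
    have h1 : 0 ≤ q * (p * (q - 1) + 2 * r) := by
      rcases lt_trichotomy q 0 with h | h | h
      · apply mul_nonneg_of_nonpos_of_nonpos h.le
        nlinarith
      · rw [h]; simp
      · apply mul_nonneg h.le
        have : 0 ≤ (p : ℤ) * (q - 1) := mul_nonneg hp0.le (by omega)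
        omega
    have h2 : r * (p - r) - y * (p - y) = p * (q * (p * (q - 1) + 2 * r)) := by
      rw [hy]
      ring
    have h3 : 0 ≤ (p : ℤ) * (q * (p * (q - 1) + 2 * r)) := mul_nonneg hp0.le h1
    linarith
  exact_mod_cast hint

/-- The variance bound. -/
lemma variance_lower (hp : p % 2 = 1) (hp2 : 2 ≤ p) (L : ZMod p → ℤ) (m : ℤ)
    (hL : ∑ t, L t = p * m)
    (hf : ∀ h : ZMod p, h ≠ 0 →
      es (fun t => h * ((L t - m + (p + 1) / 2 : ℤ) : ZMod p)) < 1 / 8) :
    (p : ℝ) * ((p : ℝ) ^ 2 - 1) / 16 < ∑ t, ((L t : ℝ) - m) ^ 2 := by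
  have hp0 : (0 : ℝ) < p := by exact_mod_cast (Fact.out : p.Prime).pos
  obtain ⟨a, ha⟩ : ∃ a : ℤ, (p : ℤ) = 2 * a + 1 := ⟨(p : ℤ) / 2, by omega⟩
  have hhalf : ((p : ℤ) + 1) / 2 = a + 1 := by omega
  rw [hhalf] at hf
  have haR : (p : ℝ) = 2 * a + 1 := by exact_mod_cast ha
  have h1 := sum_R_lt hp2 (fun t => ((L t - m + (a + 1) : ℤ) : ZMod p)) (by
    intro h hh
    have := hf h hh
    unfold es at this
    rw [div_lt_iff₀ hp0] at this
    linarith)
  have h2 : ∑ t, (((L t - m + (a + 1) : ℤ) : ℝ) * (p - ((L t - m + (a + 1) : ℤ) : ℝ))) ≤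
      ∑ t, R (((L t - m + (a + 1) : ℤ) : ZMod p)) :=
    Finset.sum_le_sum (fun t _ => quad_le_R _)
  have h3 : ∑ t, (((L t - m + (a + 1) : ℤ) : ℝ) * (p - ((L t - m + (a + 1) : ℤ) : ℝ))) =
      (p : ℝ) * ((p : ℝ) ^ 2 - 1) / 4 - ∑ t, ((L t : ℝ) - m) ^ 2 := by
    have h4 : ∀ t, (((L t - m + (a + 1) : ℤ) : ℝ) * (p - ((L t - m + (a + 1) : ℤ) : ℝ))) =
        ((p : ℝ) ^ 2 - 1) / 4 - ((L t : ℝ) - m) ^ 2 - ((L t : ℝ) - m) := by
      intro t
      push_cast
      rw [haR]
      ring
    simp only [h4]
    rw [Finset.sum_sub_distrib, Finset.sum_sub_distrib, Finset.sum_sub_distrib]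
    have h5 : ∑ t : ZMod p, (L t : ℝ) = p * m := by exact_mod_cast hL
    rw [h5]
    simp [ZMod.card]
    ring
  rw [h3] at h2
  linarith

/-- A function with vanishing difference is constant. -/
lemma const_of_Dl_zero {G : ZMod p → ZMod p} (hG : ∀ t, Dl G t = 0) (t : ZMod p) : G t = G 0 := by
  have := shift_of_Dl_const hG 0 t
  rw [zero_add, mul_zero] at this
  linear_combination this

/-- If some iterated difference of `F` vanishes and `F` is not constant, then all nontrivial
exponential sums of `F` are small. -/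
lemma es_small (n : ℕ) (F : ZMod p → ZMod p) (hF : ∀ t, (Dl^[n + 2] F) t = 0)
    (hnc : ¬ ∀ t, F t = F 0) (hn : n * 8 ^ 2 ^ n < p) (h : ZMod p) (hh : h ≠ 0) :
    es (fun t => h * F t) < 1 / 8 := by
  classical
  have hp0 : (0 : ℝ) < p := by exact_mod_cast (Fact.out : p.Prime).pos
  -- the largest nonvanishing iterated difference
  have hex : ∃ d ≤ n, ∃ c ≠ 0, ∀ t, (Dl^[d + 1] F) t = c := by
    have hP : ∃ j, ∀ t, (Dl^[j + 1] F) t = 0 := ⟨n + 1, hF⟩
    let j := Nat.find hP
    have hj : ∀ t, (Dl^[j + 1] F) t = 0 := Nat.find_spec hP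
    have hjn : j ≤ n + 1 := Nat.find_min' hP hF
    have hj0 : j ≠ 0 := by
      intro h0
      rw [h0] at hj
      exact hnc (const_of_Dl_zero (G := F) (by simpa using hj))
    obtain ⟨d, hd⟩ : ∃ d, j = d + 1 := Nat.exists_eq_succ_of_ne_zero hj0
    refine ⟨d, by omega, (Dl^[d + 1] F) 0, ?_, ?_⟩
    · intro h0
      have hcon : ∀ t, (Dl^[d + 1] F) t = 0 := by
        intro t
        rw [const_of_Dl_zero (G := Dl^[d + 1] F) _ t, h0]
        intro t'
        have := hj t'
        rw [hd, Function.iterate_succ_apply'] at this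
        exact this
      have := Nat.find_min hP (m := d) (by
        change d < j
        omega)
      exact this hcon
    · apply const_of_Dl_zero
      intro t'
      have := hj t'
      rw [hd, Function.iterate_succ_apply'] at this
      exact this
  obtain ⟨d, hdn, c, hc, hconst⟩ := hex
  have h1 := es_pow_le d (fun t => h * F t) (h * c) (mul_ne_zero hh hc) (by
    intro t
    rw [Dl_iter_smul]
    simp only [hconst])
  by_contra hcon
  push Not at hcon
  have h2 : (1 / 8 : ℝ) ^ 2 ^ d ≤ (d : ℝ) / p :=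
    (pow_le_pow_left₀ (by norm_num) hcon _).trans h1
  rw [le_div_iff₀ hp0, one_div, inv_pow, inv_mul_le_iff₀ (by positivity)] at h2
  have h3 : (8 : ℝ) ^ 2 ^ d * d ≤ n * 8 ^ 2 ^ n := by
    rw [mul_comm]
    apply mul_le_mul
    · exact_mod_cast hdn
    · apply pow_le_pow_right₀ (by norm_num)
      exact Nat.pow_le_pow_right (by norm_num) hdn
    · positivity
    · positivity
  have h4 : ((n * 8 ^ 2 ^ n : ℕ) : ℝ) < p := by exact_mod_cast hn
  push_cast at h4
  linarith

end Variance

/-! ### Directions -/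

section Directions

variable {p : ℕ} [Fact p.Prime]

/-- The linear functional with kernel the direction `s` (`none`: vertical, `some a`: slope `a`). -/
def ell (s : Option (ZMod p)) : (ZMod p × ZMod p) →ₗ[ZMod p] ZMod p :=
  match s with
  | none => LinearMap.fst _ _ _
  | some a => LinearMap.snd _ _ _ - a • LinearMap.fst _ _ _

@[simp] lemma ell_none (P : ZMod p × ZMod p) : ell (none : Option (ZMod p)) P = P.1 := rfl

@[simp] lemma ell_some (a : ZMod p) (P : ZMod p × ZMod p) : ell (some a) P = P.2 - a * P.1 := rfl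

/-- Two distinct points are on exactly one common line. -/
lemma card_common [DecidableEq (Option (ZMod p))] {P Q : ZMod p × ZMod p} (h : Q ≠ P) :
    (univ.filter (fun s : Option (ZMod p) => ell s Q = ell s P)).card = 1 := by
  classical
  rw [Finset.card_eq_one]
  by_cases hx : Q.1 = P.1
  · refine ⟨none, ?_⟩
    ext s
    simp only [Finset.mem_filter, Finset.mem_univ, true_and, Finset.mem_singleton]
    constructor
    · intro hs
      match s with
      | none => rfl
      | some a =>
        exfalso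
        rw [ell_some, ell_some, hx] at hs
        exact h (Prod.ext hx (by linear_combination hs))
    · rintro rfl
      simpa using hx
  · refine ⟨some ((Q.2 - P.2) / (Q.1 - P.1)), ?_⟩
    have hx' : Q.1 - P.1 ≠ 0 := sub_ne_zero.2 hx
    ext s
    simp only [Finset.mem_filter, Finset.mem_univ, true_and, Finset.mem_singleton]
    constructor
    · intro hs
      match s with
      | none => exact absurd hs hx
      | some a =>
        rw [ell_some, ell_some] at hs
        congr 1
        rw [eq_div_iff hx']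
        linear_combination -hs
    · rintro rfl
      rw [ell_some, ell_some]
      field_simp
      ring

/-- separating vector -/
lemma exists_sep {s s' : Option (ZMod p)} (h : s ≠ s') :
    ∃ v : ZMod p × ZMod p, ell s' v = 0 ∧ ell s v = 1 := by
  match s, s' with
  | none, none => exact absurd rfl h
  | none, some a => exact ⟨(1, a), by simp, by simp⟩
  | some a, none => exact ⟨(0, 1), by simp, by simp⟩
  | some a, some b =>
    have hab : b - a ≠ 0 := by
      intro h0
      apply h
      rw [sub_eq_zero.1 h0]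
    refine ⟨((b - a)⁻¹, b * (b - a)⁻¹), by simp, ?_⟩
    rw [ell_some]
    simp only
    field_simp

lemma ell_surj (s : Option (ZMod p)) (t : ZMod p) : ∃ P, ell s P = t := by
  match s with
  | none => exact ⟨(t, 0), rfl⟩
  | some a => exact ⟨(0, t), by simp⟩

lemma finrank_ker (s : Option (ZMod p)) :
    Module.finrank (ZMod p) (LinearMap.ker (ell s)) = 1 := by
  have h1 := LinearMap.finrank_range_add_finrank_ker (ell s)
  have h2 : LinearMap.range (ell s) = ⊤ := LinearMap.range_eq_top.2 (ell_surj s)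
  rw [h2, finrank_top, Module.finrank_self, Module.finrank_prod, Module.finrank_self] at h1
  omega

lemma exists_ker_eq (v : Submodule (ZMod p) (ZMod p × ZMod p))
    (hv : Module.finrank (ZMod p) v = 1) : ∃ s, LinearMap.ker (ell s) = v := by
  obtain ⟨⟨⟨x, y⟩, hw⟩, hw0, hspan⟩ := finrank_eq_one_iff'.1 hv
  have key : ∀ s, ell s ((x, y) : ZMod p × ZMod p) = 0 → LinearMap.ker (ell s) = v := by
    intro s hs
    symm
    apply Submodule.eq_of_le_of_finrank_eq
    · intro z hz
      obtain ⟨c, hc⟩ := hspan ⟨z, hz⟩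
      have hc' : c • ((x, y) : ZMod p × ZMod p) = z := congrArg Subtype.val hc
      rw [LinearMap.mem_ker, ← hc', map_smul, hs, smul_zero]
    · rw [hv, finrank_ker]
  by_cases hx : x = 0
  · exact ⟨none, key none (by simpa using hx)⟩
  · refine ⟨some (y / x), key _ ?_⟩
    rw [ell_some]
    simp only
    field_simp
    ring

lemma ker_injective : Function.Injective (fun s : Option (ZMod p) => LinearMap.ker (ell s)) := by
  intro s s' h
  by_contra hne
  obtain ⟨v, hv1, hv2⟩ := exists_sep hne
  have h1 : v ∈ LinearMap.ker (ell s') := hv1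
  simp only at h
  rw [← h, LinearMap.mem_ker, hv2] at h1
  exact one_ne_zero h1

/-- The key algebraic fact: in a relation between functions of the directions in `D`, each
function is annihilated by an iterated difference. -/
lemma relation_diff (n : ℕ) : ∀ (D : Finset (Option (ZMod p))), D.card = n + 1 →
    ∀ F : Option (ZMod p) → ZMod p → ZMod p, (∀ P, ∑ s ∈ D, F s (ell s P) = 0) →
      ∀ s ∈ D, ∀ t, (Dl^[n] (F s)) t = 0 := by
  classical
  induction n with
  | zero =>
    intro D hD F hF s hs t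
    obtain ⟨s0, rfl⟩ := Finset.card_eq_one.1 hD
    rw [Finset.mem_singleton] at hs
    subst hs
    obtain ⟨P, hP⟩ := ell_surj s t
    have := hF P
    rw [Finset.sum_singleton, hP] at this
    exact this
  | succ n ih =>
    intro D hD F hF s hs t
    obtain ⟨s1, hs1, hne⟩ : ∃ s1 ∈ D, s1 ≠ s := by
      apply Finset.exists_mem_ne
      omega
    obtain ⟨v, hv1, hv2⟩ := exists_sep hne.symm
    have hcard : (D.erase s1).card = n + 1 := by
      rw [Finset.card_erase_of_mem hs1, hD]
      omega
    have h1 := ih (D.erase s1) hcard (fun s' t' => F s' (t' + ell s' v) - F s' t') (by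
      intro P
      have h2 : ∑ s' ∈ D, (F s' (ell s' P + ell s' v) - F s' (ell s' P)) = 0 := by
        rw [Finset.sum_sub_distrib]
        have h3 := hF (P + v)
        simp only [map_add] at h3
        rw [h3, hF P, sub_zero]
      rw [← Finset.add_sum_erase _ _ hs1, hv1] at h2
      simpa using h2) s (Finset.mem_erase.2 ⟨hne.symm, hs⟩) t
    rw [Function.iterate_succ_apply]
    have h4 : Dl (F s) = fun t' => F s (t' + ell s v) - F s t' := by
      funext t'
      rw [hv2]
      rfl
    rw [h4]
    exact h1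

/-- The same with a constant right-hand side (at least two directions). -/
lemma relation_diff' (n : ℕ) (D : Finset (Option (ZMod p))) (hD : D.card = n + 2)
    (F : Option (ZMod p) → ZMod p → ZMod p) (κ : ZMod p)
    (hF : ∀ P, ∑ s ∈ D, F s (ell s P) = κ) (s : Option (ZMod p)) (hs : s ∈ D) (t : ZMod p) :
    (Dl^[n + 1] (F s)) t = 0 := by
  classical
  obtain ⟨s1, hs1, hne⟩ : ∃ s1 ∈ D, s1 ≠ s := by
    apply Finset.exists_mem_ne
    omega
  obtain ⟨v, hv1, hv2⟩ := exists_sep hne.symm
  have hcard : (D.erase s1).card = n + 1 := by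
    rw [Finset.card_erase_of_mem hs1, hD]
    omega
  have h1 := relation_diff n (D.erase s1) hcard (fun s' t' => F s' (t' + ell s' v) - F s' t') (by
    intro P
    have h2 : ∑ s' ∈ D, (F s' (ell s' P + ell s' v) - F s' (ell s' P)) = 0 := by
      rw [Finset.sum_sub_distrib]
      have h3 := hF (P + v)
      simp only [map_add] at h3
      rw [h3, hF P, sub_self]
    rw [← Finset.add_sum_erase _ _ hs1, hv1] at h2
    simpa using h2) s (Finset.mem_erase.2 ⟨hne.symm, hs⟩) t
  rw [Function.iterate_succ_apply]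
  have h4 : Dl (F s) = fun t' => F s (t' + ell s v) - F s t' := by
    funext t'
    rw [hv2]
    rfl
  rw [h4]
  exact h1

end Directions

/-! ### Line counts -/

section Counts

variable {p : ℕ} [Fact p.Prime]

open Classical in
/-- The number of points of `S` on the line with direction `s` and parameter `t`. -/
noncomputable def cnt (S : Finset (ZMod p × ZMod p)) (s : Option (ZMod p)) (t : ZMod p) : ℕ :=
  (S.filter (fun P => ell s P = t)).card

lemma sum_cnt (S : Finset (ZMod p × ZMod p)) (s : Option (ZMod p)) :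
    ∑ t, cnt S s t = S.card := by
  classical
  unfold cnt
  exact (Finset.card_eq_sum_card_fiberwise (fun _ _ => Finset.mem_univ _)).symm

lemma cnt_le (S : Finset (ZMod p × ZMod p)) (s : Option (ZMod p)) (t : ZMod p) :
    cnt S s t ≤ p := by
  classical
  unfold cnt
  have h1 : (univ : Finset (ZMod p)).card = p := by simp [ZMod.card]
  refine le_trans ?_ h1.le
  match s with
  | none =>
    apply Finset.card_le_card_of_injOn (fun P => P.2) (fun _ _ => Finset.mem_univ _)
    intro P hP Q hQ h
    have hP' := (Finset.mem_filter.1 (Finset.mem_coe.1 hP)).2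
    have hQ' := (Finset.mem_filter.1 (Finset.mem_coe.1 hQ)).2
    exact Prod.ext (hP'.trans hQ'.symm) h
  | some a =>
    apply Finset.card_le_card_of_injOn (fun P => P.1) (fun _ _ => Finset.mem_univ _)
    intro P hP Q hQ h
    have hP' := (Finset.mem_filter.1 (Finset.mem_coe.1 hP)).2
    have hQ' := (Finset.mem_filter.1 (Finset.mem_coe.1 hQ)).2
    rw [ell_some] at hP' hQ'
    simp only at h
    rw [h] at hP'
    exact Prod.ext h (by linear_combination hP' - hQ')

open Classical in
lemma sum_dir_cnt (S : Finset (ZMod p × ZMod p)) (P : ZMod p × ZMod p) :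
    ∑ s, cnt S s (ell s P) = S.card + if P ∈ S then p else 0 := by
  have h1 : ∑ s, cnt S s (ell s P) =
      ∑ Q ∈ S, (univ.filter (fun s : Option (ZMod p) => ell s Q = ell s P)).card := by
    unfold cnt
    simp only [Finset.card_filter]
    rw [Finset.sum_comm]
  have h2 : ∀ Q ∈ S, (univ.filter (fun s : Option (ZMod p) => ell s Q = ell s P)).card =
      1 + if Q = P then p else 0 := by
    intro Q _
    by_cases h : Q = P
    · rw [if_pos h, h]
      simp only [Finset.filter_true, Finset.card_univ, Fintype.card_option, ZMod.card]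
      omega
    · rw [if_neg h, card_common h]
  rw [h1, Finset.sum_congr rfl h2, Finset.sum_add_distrib, Finset.sum_ite_eq' S P]
  simp

lemma sum_sq_cnt (S : Finset (ZMod p × ZMod p)) :
    ∑ s, ∑ t, cnt S s t ^ 2 = S.card * (S.card + p) := by
  classical
  have h1 : ∀ s, ∑ t, cnt S s t ^ 2 = ∑ P ∈ S, cnt S s (ell s P) := by
    intro s
    rw [← Finset.sum_fiberwise S (fun P => ell s P) (fun P => cnt S s (ell s P))]
    apply Finset.sum_congr rfl
    intro t _
    rw [Finset.sum_congr rfl (g := fun _ => cnt S s t)]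
    · rw [Finset.sum_const, smul_eq_mul, sq]
      rfl
    · intro P hP
      rw [(Finset.mem_filter.1 hP).2]
  simp only [h1]
  rw [Finset.sum_comm]
  rw [Finset.sum_congr rfl (g := fun _ => S.card + p)]
  · rw [Finset.sum_const, smul_eq_mul]
  · intro P hP
    rw [sum_dir_cnt, if_pos hP]

/-- Parseval identity. -/
lemma parseval (S : Finset (ZMod p × ZMod p)) (m : ℤ) (hm : (S.card : ℤ) = p * m) :
    ∑ s, ∑ t, ((cnt S s t : ℤ) - m) ^ 2 = p * (m * (p - m)) := by
  have h1 : ∀ s, ∑ t, ((cnt S s t : ℤ) - m) ^ 2 =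
      ∑ t, (cnt S s t : ℤ) ^ 2 - 2 * m * (p * m) + p * m ^ 2 := by
    intro s
    have h2 : ∑ t, (cnt S s t : ℤ) = p * m := by
      rw [← hm]
      exact_mod_cast sum_cnt S s
    have h3 : ∀ t, ((cnt S s t : ℤ) - m) ^ 2 =
        (cnt S s t : ℤ) ^ 2 - 2 * m * (cnt S s t : ℤ) + m ^ 2 := by
      intro t
      ring
    simp only [h3]
    rw [Finset.sum_add_distrib, Finset.sum_sub_distrib, ← Finset.mul_sum, h2]
    simp [ZMod.card]
  simp only [h1]
  rw [Finset.sum_add_distrib, Finset.sum_sub_distrib]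
  have h4 : ∑ s : Option (ZMod p), ∑ t, (cnt S s t : ℤ) ^ 2 = (p * m) * (p * m + p) := by
    have h5 := sum_sq_cnt S
    rw [← hm]
    exact_mod_cast h5
  rw [h4]
  simp [ZMod.card, Fintype.card_option]
  ring

lemma ncard_eq_cnt (S : Set (ZMod p × ZMod p)) (S' : Finset (ZMod p × ZMod p))
    (hS : (S' : Set (ZMod p × ZMod p)) = S) (s : Option (ZMod p)) (x : ZMod p × ZMod p) :
    (S ∩ {z | z - x ∈ LinearMap.ker (ell s)}).ncard = cnt S' s (ell s x) := by
  classical
  unfold cnt
  rw [← Set.ncard_coe_finset]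
  congr 1
  ext z
  simp only [Set.mem_inter_iff, Set.mem_ofPred_eq, LinearMap.mem_ker, map_sub, sub_eq_zero,
    Finset.coe_filter, ← hS, Finset.mem_coe]

end Counts

/-- For every `k ≥ 4` and every prime `p > (k-3) * 8^(2^(k-3))` no subset of the plane over `F_p`
is equidistributed in exactly `p + 1 - k` directions, i.e. has exactly `k` special directions.
In particular for every prime `p > 64` no set is equidistributed in exactly `p - 3` directions. -/
theorem result (k : ℕ) (hk : 4 ≤ k) (p : ℕ) [Fact p.Prime]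
    (hp : (k - 3) * 8 ^ 2 ^ (k - 3) < p) (S : Set (ZMod p × ZMod p)) :
    numEquidistributed S ≠ p + 1 - k := by
  classical
  intro hnum
  have hprime : p.Prime := Fact.out
  -- size of p
  have hpk : k + 3 < p := by
    have h1 : k - 3 < 2 ^ (k - 3) := Nat.lt_two_pow_self
    have h2 : 8 ^ (2 : ℕ) ^ (k - 3) ≥ 8 ^ (k - 3 + 1) :=
      Nat.pow_le_pow_right (by norm_num) (by omega)
    have h3 : 8 ^ (k - 3 + 1) ≥ 8 * (k - 3) + 8 := by
      have := Nat.lt_pow_self (n := k - 3) (a := 8) (by norm_num)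
      rw [pow_succ]
      omega
    have h4 : 1 * 8 ^ 2 ^ (k - 3) ≤ (k - 3) * 8 ^ 2 ^ (k - 3) :=
      Nat.mul_le_mul_right _ (by omega)
    omega
  have hodd : p % 2 = 1 := by
    rcases hprime.eq_two_or_odd with h | h
    · omega
    · exact h
  have hpR : (0 : ℝ) < p := by exact_mod_cast hprime.pos
  let S' : Finset (ZMod p × ZMod p) := (Set.toFinite S).toFinset
  have hS' : (S' : Set (ZMod p × ZMod p)) = S := (Set.toFinite S).coe_toFinset
  -- equidistributed directions in terms of counts
  have hequi : ∀ s, EquidistributedIn S (LinearMap.ker (ell s)) ↔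
      ∀ t t', cnt S' s t = cnt S' s t' := by
    intro s
    constructor
    · intro h t t'
      obtain ⟨P, rfl⟩ := ell_surj s t
      obtain ⟨Q, rfl⟩ := ell_surj s t'
      rw [← ncard_eq_cnt S S' hS', ← ncard_eq_cnt S S' hS']
      exact h P Q
    · intro h x y
      rw [ncard_eq_cnt S S' hS', ncard_eq_cnt S S' hS']
      exact h _ _
  let E : Finset (Option (ZMod p)) := univ.filter (fun s => ∀ t t', cnt S' s t = cnt S' s t')
  let D : Finset (Option (ZMod p)) := univ.filter (fun s => ¬ ∀ t t', cnt S' s t = cnt S' s t')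
  have hEcard : E.card = p + 1 - k := by
    rw [← hnum]
    unfold numEquidistributed
    have himg : {v : Submodule (ZMod p) (ZMod p × ZMod p) |
        Module.finrank (ZMod p) v = 1 ∧ EquidistributedIn S v} =
        (fun s : Option (ZMod p) => LinearMap.ker (ell s)) '' (E : Set (Option (ZMod p))) := by
      ext v
      simp only [Set.mem_ofPred_eq, Set.mem_image, Finset.mem_coe, E, Finset.mem_filter,
        Finset.mem_univ, true_and]
      constructor
      · rintro ⟨h1, h2⟩
        obtain ⟨s, rfl⟩ := exists_ker_eq v h1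
        exact ⟨s, (hequi s).1 h2, rfl⟩
      · rintro ⟨s, hs, rfl⟩
        exact ⟨finrank_ker s, (hequi s).2 hs⟩
    rw [himg, Set.ncard_image_of_injective _ ker_injective, Set.ncard_coe_finset]
  have hED : E.card + D.card = p + 1 := by
    have := Finset.card_filter_add_card_filter_not (s := (univ : Finset (Option (ZMod p))))
      (fun s => ∀ t t', cnt S' s t = cnt S' s t')
    rw [Finset.card_univ, Fintype.card_option, ZMod.card] at this
    exact this
  have hDcard : D.card = k := by omega
  -- the mean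
  have hEpos : 0 < E.card := by omega
  obtain ⟨s0, hs0⟩ := Finset.card_pos.1 hEpos
  have hs0' := (Finset.mem_filter.1 hs0).2
  let m : ℕ := cnt S' s0 0
  have hcardS : S'.card = p * m := by
    rw [← sum_cnt S' s0, Finset.sum_congr rfl (g := fun _ => m) (fun t _ => hs0' t 0)]
    simp [ZMod.card]
  have hmle : m ≤ p := cnt_le _ _ _
  have hE : ∀ s ∈ E, ∀ t, cnt S' s t = m := by
    intro s hs t
    have h1 := (Finset.mem_filter.1 hs).2
    have h2 : p * cnt S' s t = p * m := by
      rw [← hcardS, ← sum_cnt S' s, Finset.sum_congr rfl (g := fun _ => cnt S' s t)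
        (fun t' _ => h1 t' t)]
      simp [ZMod.card]
    exact Nat.eq_of_mul_eq_mul_left hprime.pos h2
  -- sums over all directions reduce to sums over `D`
  have hsplit : ∀ f : Option (ZMod p) → ℤ, (∀ s ∈ E, f s = 0) → ∑ s, f s = ∑ s ∈ D, f s := by
    intro f hf
    rw [← Finset.sum_filter_add_sum_filter_not univ
      (fun s => ∀ t t', cnt S' s t = cnt S' s t') f]
    rw [Finset.sum_eq_zero (s := univ.filter (fun s => ∀ t t', cnt S' s t = cnt S' s t')) hf,
      zero_add]
  have hpars : ∑ s ∈ D, ∑ t, ((cnt S' s t : ℤ) - m) ^ 2 = p * ((m : ℤ) * (p - m)) := by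
    rw [← parseval S' (m : ℤ) (by exact_mod_cast hcardS)]
    symm
    apply hsplit
    intro s hs
    apply Finset.sum_eq_zero
    intro t _
    rw [hE s hs t, sub_self]
    norm_num
  have hrel : ∀ P, ∑ s ∈ D, ((cnt S' s (ell s P) : ℤ) - m) = (if P ∈ S' then (p : ℤ) else 0) - m := by
    intro P
    rw [← hsplit (fun s => (cnt S' s (ell s P) : ℤ) - m) (by
      intro s hs
      rw [hE s hs, sub_self])]
    rw [Finset.sum_sub_distrib]
    have h1 : ∑ s, (cnt S' s (ell s P) : ℤ) = (p * m : ℤ) + if P ∈ S' then (p : ℤ) else 0 := by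
      have h2 := sum_dir_cnt S' P
      rw [hcardS] at h2
      exact_mod_cast h2
    rw [h1]
    simp [ZMod.card, Fintype.card_option]
    ring
  -- the functions mod p
  let F : Option (ZMod p) → ZMod p → ZMod p := fun s t =>
    (((cnt S' s t : ℤ) - m + (p + 1) / 2 : ℤ) : ZMod p)
  have hFrel : ∀ P, ∑ s ∈ D, F s (ell s P) =
      ((-(m : ℤ) + k * (((p : ℤ) + 1) / 2) : ℤ) : ZMod p) := by
    intro P
    have h1 : ∑ s ∈ D, F s (ell s P) =
        ((∑ s ∈ D, ((cnt S' s (ell s P) : ℤ) - m + (p + 1) / 2) : ℤ) : ZMod p) := by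
      simp only [F]
      rw [Int.cast_sum]
    rw [h1, Finset.sum_add_distrib, hrel P, Finset.sum_const, hDcard]
    split_ifs
    · push_cast
      simp
    · push_cast
      simp
  have hdiff : ∀ s ∈ D, ∀ t, (Dl^[(k - 3) + 2] (F s)) t = 0 := by
    intro s hs t
    have := relation_diff' (k - 2) D (by omega) F _ hFrel s hs t
    have hk2 : k - 2 + 1 = k - 3 + 2 := by omega
    rwa [hk2] at this
  -- no function `F s` is constant
  have hnonconst : ∀ s ∈ D, ¬ ∀ t, F s t = F s 0 := by
    intro s hs hconst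
    have hs' := (Finset.mem_filter.1 hs).2
    have hmod : ∀ t, (p : ℤ) ∣ (cnt S' s t : ℤ) - cnt S' s 0 := by
      intro t
      have h1 := hconst t
      simp only [F] at h1
      rw [← sub_eq_zero, ← Int.cast_sub, ZMod.intCast_zmod_eq_zero_iff_dvd] at h1
      have h2 : (cnt S' s t : ℤ) - m + (p + 1) / 2 - ((cnt S' s 0 : ℤ) - m + (p + 1) / 2) =
        (cnt S' s t : ℤ) - cnt S' s 0 := by ring
      rwa [h2] at h1
    -- every count is 0 or p
    have h0p : ∀ t, cnt S' s t = 0 ∨ cnt S' s t = p := by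
      by_contra hcon
      push Not at hcon
      obtain ⟨t1, ht1, ht1'⟩ := hcon
      apply hs'
      have hall : ∀ t, cnt S' s t = cnt S' s t1 := by
        intro t
        have h1 := hmod t
        have h2 := hmod t1
        have h3 : (p : ℤ) ∣ (cnt S' s t : ℤ) - cnt S' s t1 := by
          have := dvd_sub h1 h2
          have h4 : (cnt S' s t : ℤ) - cnt S' s 0 - ((cnt S' s t1 : ℤ) - cnt S' s 0) =
            (cnt S' s t : ℤ) - cnt S' s t1 := by ring
          rwa [h4] at this
        have h5 := cnt_le S' s t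
        have h6 := cnt_le S' s t1
        obtain ⟨c, hc⟩ := h3
        have hc1 : c < 1 := by
          by_contra hcc
          have : (p : ℤ) * 1 ≤ p * c := mul_le_mul_of_nonneg_left (by omega) (by omega)
          omega
        have hc2 : -1 < c := by
          by_contra hcc
          have : (p : ℤ) * c ≤ p * (-1) := mul_le_mul_of_nonneg_left (by omega) (by omega)
          omega
        have hc0 : c = 0 := by omega
        rw [hc0, mul_zero] at hc
        omega
      intro t t'
      rw [hall t, hall t']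
    -- Parseval then forces all other directions to be equidistributed
    have hvar : ∑ t, ((cnt S' s t : ℤ) - m) ^ 2 = p * ((m : ℤ) * (p - m)) := by
      have h1 : ∀ t, ((cnt S' s t : ℤ) - m) ^ 2 =
          (p - 2 * m) * (cnt S' s t : ℤ) + (m : ℤ) ^ 2 := by
        intro t
        rcases h0p t with h | h
        · rw [h]; push_cast; ring
        · rw [h]; ring
      simp only [h1]
      rw [Finset.sum_add_distrib, ← Finset.mul_sum]
      have h2 : ∑ t, (cnt S' s t : ℤ) = p * m := by
        have := sum_cnt S' s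
        rw [hcardS] at this
        exact_mod_cast this
      rw [h2]
      simp [ZMod.card]
      ring
    obtain ⟨s1, hs1, hne⟩ : ∃ s1 ∈ D, s1 ≠ s := by
      apply Finset.exists_mem_ne
      omega
    rw [← Finset.add_sum_erase _ _ hs, hvar] at hpars
    have hzero : ∑ s' ∈ D.erase s, ∑ t, ((cnt S' s' t : ℤ) - m) ^ 2 = 0 := by linarith
    rw [Finset.sum_eq_zero_iff_of_nonneg (fun i _ => Finset.sum_nonneg (fun t _ => sq_nonneg _))]
      at hzero
    have h1 := hzero s1 (Finset.mem_erase.2 ⟨hne, hs1⟩)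
    rw [Finset.sum_eq_zero_iff_of_nonneg (fun t _ => sq_nonneg _)] at h1
    apply (Finset.mem_filter.1 hs1).2
    have h2 : ∀ t, (cnt S' s1 t : ℤ) = m := by
      intro t
      have := h1 t (Finset.mem_univ _)
      have := pow_eq_zero_iff (two_ne_zero) |>.1 this
      linarith
    intro t t'
    have h3 := h2 t
    have h4 := h2 t'
    omega
  -- variance lower bound for each special direction
  have hlow : ∀ s ∈ D, (p : ℝ) * ((p : ℝ) ^ 2 - 1) / 16 < ∑ t, (((cnt S' s t : ℤ) : ℝ) - (m : ℤ)) ^ 2 := by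
    intro s hs
    apply variance_lower hodd (by omega) (fun t => (cnt S' s t : ℤ)) (m : ℤ)
    · have := sum_cnt S' s
      rw [hcardS] at this
      exact_mod_cast this
    · intro h hh
      exact es_small (k - 3) (F s) (hdiff s hs) (hnonconst s hs) hp h hh
  have hsum : ∑ s ∈ D, (p : ℝ) * ((p : ℝ) ^ 2 - 1) / 16 <
      ∑ s ∈ D, ∑ t, (((cnt S' s t : ℤ) : ℝ) - (m : ℤ)) ^ 2 := by
    apply Finset.sum_lt_sum_of_nonempty _ hlow
    apply Finset.card_pos.1
    omega
  have hsum2 : ∑ s ∈ D, ∑ t, (((cnt S' s t : ℤ) : ℝ) - (m : ℤ)) ^ 2 = p * ((m : ℝ) * (p - m)) := by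
    exact_mod_cast hpars
  rw [hsum2, Finset.sum_const, hDcard, nsmul_eq_mul] at hsum
  have hkR : (4 : ℝ) ≤ k := by exact_mod_cast hk
  have hp1 : (1 : ℝ) ≤ (p : ℝ) ^ 2 := by
    have : (1 : ℝ) ≤ p := by exact_mod_cast hprime.one_le
    nlinarith
  have h7 : (4 : ℝ) * ((p : ℝ) * ((p : ℝ) ^ 2 - 1) / 16) ≤ k * ((p : ℝ) * ((p : ℝ) ^ 2 - 1) / 16) := by
    apply mul_le_mul_of_nonneg_right hkR
    apply div_nonneg (mul_nonneg hpR.le (by linarith)) (by norm_num)
  have h8 : ((p : ℝ) ^ 2 - 1) / 4 < (m : ℝ) * (p - m) := by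
    have h9 : (p : ℝ) * (((p : ℝ) ^ 2 - 1) / 4) < p * ((m : ℝ) * (p - m)) := by linarith
    exact lt_of_mul_lt_mul_left h9 hpR.le
  have h10 : (1 : ℝ) ≤ ((p : ℝ) - 2 * m) ^ 2 := by
    have h11 : (1 : ℤ) ≤ ((p : ℤ) - 2 * m) ^ 2 := by
      have : (p : ℤ) - 2 * m ≠ 0 := by omega
      have := sq_pos_of_ne_zero this
      omega
    exact_mod_cast h11
  nlinarith

end Pool.Agent.Results.MP_ec4324_co.NoFewSpecial
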